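import Pool.Agent.H44.NQ.Basic

/-!
# `Q 15 = 15`: an explicit partition of the `15 × 15` board into fifteen patterns

The list gives, for each of the fifteen colours, the columns of its fifteen queens row by row.
-/

set_option autoImplicit false
set_option maxRecDepth 100000

namespace Pool.Agent.H29.QP

open Pool.Agent.H44.NQ

/-- the check on a list of patterns (columns row by row) -/
def chk (n : ℕ) (l : List (List ℕ)) : Bool :=
  (List.range n).all fun a => (List.range n).all fun i =>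
    (decide ((l.getD a []).getD i 0 < n)) &&
    ((List.range n).all fun i' => decide (i = i') ||
      (decide ((l.getD a []).getD i 0 ≠ (l.getD a []).getD i' 0) &&
       decide (i + (l.getD a []).getD i' 0 ≠ i' + (l.getD a []).getD i 0) &&
       decide (i + (l.getD a []).getD i 0 ≠ i' + (l.getD a []).getD i' 0))) &&
    ((List.range n).all fun b => decide (a = b) ||
      decide ((l.getD a []).getD i 0 ≠ (l.getD b []).getD i 0))

theorem packs_of_chk {n : ℕ} (l : List (List ℕ)) (h : chk n l = true) : Packs n n := by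
  simp only [chk, List.all_eq_true, List.mem_range, Bool.and_eq_true, Bool.or_eq_true,
    decide_eq_true_eq] at h
  apply packs_iff.mpr
  refine ⟨fun a i => ⟨(l.getD a []).getD i 0, ((h a a.2 i i.2).1).1⟩, ?_, ?_⟩
  · intro a i i' hne
    have hne' : (i : ℕ) ≠ (i' : ℕ) := fun h => hne (Fin.ext h)
    have h1 := (((h a a.2 i i.2).1).2 i' i'.2).resolve_left hne'
    refine ⟨fun h2 => h1.1.1 (congrArg Fin.val h2), ?_, ?_⟩
    · intro h2
      apply h1.1.2
      have : ((i : ℕ) : ℤ) + (((l.getD a []).getD i' 0 : ℕ) : ℤ) =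
          ((i' : ℕ) : ℤ) + (((l.getD a []).getD i 0 : ℕ) : ℤ) := by
        simp only at h2
        linarith
      exact_mod_cast this
    · intro h2
      apply h1.2
      exact_mod_cast h2
  · intro a b hab i h2
    have hab' : (a : ℕ) ≠ (b : ℕ) := fun h => hab (Fin.ext h)
    exact (((h a a.2 i i.2).2 b b.2).resolve_left hab') (congrArg Fin.val h2)

/-- fifteen disjoint patterns on the `15 × 15` board -/
def l15 : List (List ℕ) :=
  [[3, 12, 9, 13, 6, 4, 0, 7, 14, 10, 8, 1, 5, 2, 11],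
   [0, 2, 4, 10, 1, 13, 11, 5, 7, 12, 14, 3, 8, 6, 9],
   [5, 8, 6, 11, 0, 2, 7, 9, 3, 1, 13, 4, 10, 12, 14],
   [13, 7, 1, 3, 5, 12, 10, 4, 11, 14, 2, 9, 6, 8, 0],
   [14, 6, 8, 5, 12, 0, 3, 10, 4, 2, 9, 11, 13, 7, 1],
   [10, 14, 7, 4, 8, 1, 13, 6, 0, 9, 12, 5, 2, 11, 3],
   [11, 3, 12, 9, 2, 5, 14, 8, 1, 13, 6, 10, 7, 0, 4],
   [2, 5, 14, 12, 10, 8, 4, 0, 9, 3, 1, 7, 11, 13, 6],
   [8, 1, 3, 7, 13, 11, 5, 14, 10, 6, 4, 2, 0, 9, 12],
   [9, 0, 10, 1, 11, 6, 8, 3, 13, 4, 7, 14, 12, 5, 2],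
   [12, 9, 2, 0, 7, 10, 1, 11, 6, 8, 3, 13, 4, 14, 5],
   [1, 11, 13, 6, 3, 9, 2, 12, 5, 7, 10, 0, 14, 4, 8],
   [6, 10, 0, 14, 4, 7, 9, 2, 12, 5, 11, 8, 1, 3, 13],
   [4, 13, 5, 2, 9, 14, 12, 1, 8, 11, 0, 6, 3, 10, 7],
   [7, 4, 11, 8, 14, 3, 6, 13, 2, 0, 5, 12, 9, 1, 10]]

theorem packs15 : Packs 15 15 := packs_of_chk l15 (by decide +kernel)

theorem q15 : Q 15 = 15 := le_antisymm (q_le (by norm_num)) (le_q (by norm_num) packs15)

end Pool.Agent.H29.QP
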