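import Pool.Agent.H44.NQ.Basic

/-!
# The product construction: packings of the `m × m` board times toroidal `q × q` boards
-/

set_option autoImplicit false

namespace Pool.Agent.H29.QP

open Pool.Agent.H44.NQ

/-- cancellation of a factor prime to `q` on `[0, q)` -/
theorem eq_of_dvd {q : ℕ} {s : ℕ} (hs : Nat.Coprime s q) {i i' : ℕ} (hi : i < q) (hi' : i' < q)
    (h : (q : ℤ) ∣ (s : ℤ) * ((i : ℤ) - (i' : ℤ))) : i = i' := by
  have hc : IsCoprime (q : ℤ) (s : ℤ) := by
    rw [Nat.isCoprime_iff_coprime]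
    exact hs.symm
  have h1 : (q : ℤ) ∣ (i : ℤ) - (i' : ℤ) := hc.dvd_of_dvd_mul_left h
  have h2 : (i : ℤ) ≡ (i' : ℤ) [ZMOD (q : ℤ)] := by
    rw [Int.modEq_iff_dvd]
    obtain ⟨c, hc⟩ := h1
    exact ⟨-c, by linear_combination -hc⟩
  have h3 : i % q = i' % q := by
    have := h2
    unfold Int.ModEq at this
    omega
  rwa [Nat.mod_eq_of_lt hi, Nat.mod_eq_of_lt hi'] at h3

theorem mod_decomp (q : ℕ) (z : ℕ) : ∃ c : ℤ, ((z % q : ℕ) : ℤ) = (z : ℤ) - (q : ℤ) * c := by
  refine ⟨((z / q : ℕ) : ℤ), ?_⟩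
  have := Nat.div_add_mod z q
  have h2 : ((q * (z / q) + z % q : ℕ) : ℤ) = (z : ℤ) := by rw [this]
  push_cast at h2
  push_cast
  linarith

theorem packs_mul {m r q : ℕ} (hq : Nat.Coprime q 6) (h : Packs m r) : Packs (m * q) (r * q) := by
  obtain ⟨p, hp, hd⟩ := packs_iff.mp h
  have h2 : Nat.Coprime 2 q := by
    have : Nat.Coprime q 2 := Nat.Coprime.coprime_dvd_right (by norm_num) hq
    exact this.symm
  have h3 : Nat.Coprime 3 q := by
    have : Nat.Coprime q 3 := Nat.Coprime.coprime_dvd_right (by norm_num) hq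
    exact this.symm
  have h1 : Nat.Coprime 1 q := Nat.coprime_one_left q
  -- the new patterns
  let e := @finProdFinEquiv m q
  let er := @finProdFinEquiv r q
  have tlt : ∀ (b i : Fin q), (2 * (i : ℕ) + (b : ℕ)) % q < q := fun b i =>
    Nat.mod_lt _ (lt_of_le_of_lt (Nat.zero_le _) i.2)
  let P : Fin (r * q) → Fin (m * q) → Fin (m * q) := fun A x =>
    e (p (er.symm A).1 (e.symm x).1,
      ⟨(2 * ((e.symm x).2 : ℕ) + ((er.symm A).2 : ℕ)) % q, tlt _ _⟩)
  have hval : ∀ (J : Fin m) (t : Fin q), ((e (J, t) : Fin (m * q)) : ℕ) = (t : ℕ) + q * (J : ℕ) := by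
    intro J t
    simp [e, finProdFinEquiv]
  apply packs_iff.mpr
  refine ⟨P, ?_, ?_⟩
  · intro A x x' hx
    obtain ⟨⟨I, i⟩, rfl⟩ := e.surjective x
    obtain ⟨⟨I', i'⟩, rfl⟩ := e.surjective x'
    have hx' : ¬ (I = I' ∧ i = i') := by
      rintro ⟨rfl, rfl⟩
      exact hx rfl
    set a := (er.symm A).1 with ha
    set b := (er.symm A).2 with hb
    have hP : P A (e (I, i)) = e (p a I, ⟨(2 * (i : ℕ) + (b : ℕ)) % q, tlt _ _⟩) := by
      simp only [P, Equiv.symm_apply_apply, ha, hb]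
    have hP' : P A (e (I', i')) = e (p a I', ⟨(2 * (i' : ℕ) + (b : ℕ)) % q, tlt _ _⟩) := by
      simp only [P, Equiv.symm_apply_apply, ha, hb]
    obtain ⟨c, hc⟩ := mod_decomp q (2 * (i : ℕ) + (b : ℕ))
    obtain ⟨c', hc'⟩ := mod_decomp q (2 * (i' : ℕ) + (b : ℕ))
    push_cast at hc hc'
    have key : i = i' → I ≠ I' := fun h1 h2 => hx' ⟨h2, h1⟩
    have qpos : (0 : ℤ) < (q : ℤ) := by
      have := i.2
      omega
    rw [hP, hP']
    refine ⟨?_, ?_, ?_⟩
    · intro h
      have h' := e.injective h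
      have hJ : p a I = p a I' := (Prod.mk.inj h').1
      have ht := congrArg Fin.val (Prod.mk.inj h').2
      simp only at ht
      have hi : i = i' := by
        apply Fin.ext
        apply eq_of_dvd h2 i.2 i'.2
        refine ⟨c - c', ?_⟩
        have ht' : ((((2 * (i : ℕ) + (b : ℕ)) % q : ℕ)) : ℤ) =
            ((((2 * (i' : ℕ) + (b : ℕ)) % q : ℕ)) : ℤ) := by rw [ht]
        push_cast at ht'
        push_cast
        linarith
      exact (hp a I I' (key hi)).1 hJ
    · intro h
      rw [hval, hval, hval, hval] at h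
      push_cast at h
      have hi : i = i' := by
        apply Fin.ext
        apply eq_of_dvd h1 i.2 i'.2
        refine ⟨((I : ℕ) : ℤ) - ((p a I : ℕ) : ℤ) - (((I' : ℕ) : ℤ) - ((p a I' : ℕ) : ℤ)) + c - c', ?_⟩
        push_cast
        linear_combination -h - hc + hc'
      subst hi
      have hI := (hp a I I' (key rfl)).2.1
      apply hI
      have h5 : (q : ℤ) * (((I : ℕ) : ℤ) - ((p a I : ℕ) : ℤ)) =
          (q : ℤ) * (((I' : ℕ) : ℤ) - ((p a I' : ℕ) : ℤ)) := by
        linear_combination h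
      exact mul_left_cancel₀ (ne_of_gt qpos) h5
    · intro h
      rw [hval, hval, hval, hval] at h
      push_cast at h
      have hi : i = i' := by
        apply Fin.ext
        apply eq_of_dvd h3 i.2 i'.2
        refine ⟨-((I : ℕ) : ℤ) - ((p a I : ℕ) : ℤ) + (((I' : ℕ) : ℤ) + ((p a I' : ℕ) : ℤ)) + c - c', ?_⟩
        push_cast
        linear_combination h - hc + hc'
      subst hi
      have hI := (hp a I I' (key rfl)).2.2
      apply hI
      have h5 : (q : ℤ) * (((I : ℕ) : ℤ) + ((p a I : ℕ) : ℤ)) =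
          (q : ℤ) * (((I' : ℕ) : ℤ) + ((p a I' : ℕ) : ℤ)) := by
        linear_combination h
      exact mul_left_cancel₀ (ne_of_gt qpos) h5
  · intro A A' hA x hx
    obtain ⟨⟨I, i⟩, rfl⟩ := e.surjective x
    simp only [P, Equiv.symm_apply_apply] at hx
    have h' := e.injective hx
    have hJ := (Prod.mk.inj h').1
    have ht := congrArg Fin.val (Prod.mk.inj h').2
    simp only at ht
    have ha : (er.symm A).1 = (er.symm A').1 := by
      by_contra hne
      exact hd _ _ hne I hJ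
    have hb : (er.symm A).2 = (er.symm A').2 := by
      apply Fin.ext
      apply eq_of_dvd h1 (er.symm A).2.2 (er.symm A').2.2
      obtain ⟨c, hc⟩ := mod_decomp q (2 * (i : ℕ) + ((er.symm A).2 : ℕ))
      obtain ⟨c', hc'⟩ := mod_decomp q (2 * (i : ℕ) + ((er.symm A').2 : ℕ))
      push_cast at hc hc'
      have ht' : ((((2 * (i : ℕ) + ((er.symm A).2 : ℕ)) % q : ℕ)) : ℤ) =
          ((((2 * (i : ℕ) + ((er.symm A').2 : ℕ)) % q : ℕ)) : ℤ) := by rw [ht]
      push_cast at ht'
      refine ⟨c - c', ?_⟩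
      push_cast
      linarith
    exact hA (er.symm.injective (Prod.ext ha hb))

/-- the product rule -/
theorem q_mul {m q : ℕ} (hm : 1 ≤ m) (hq : Nat.Coprime q 6) (h : Q m = m) :
    Q (m * q) = m * q := by
  have hq1 : 1 ≤ q := by
    rcases Nat.eq_zero_or_pos q with h0 | h0
    · subst h0
      norm_num at hq
    · exact h0
  have hpk : Packs m m := by
    -- the supremum is attained
    have hne : {l | Packs m l}.Nonempty := by
      refine ⟨0, fun a => a.elim0, fun a => a.elim0, fun a => a.elim0⟩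
    have hbd : BddAbove {l | Packs m l} := ⟨m, fun _ h => packs_le hm h⟩
    have := Nat.sSup_mem hne hbd
    have h2 : sSup {l | Packs m l} = m := h
    rw [h2] at this
    exact this
  have h1 := packs_mul hq hpk
  have hmq : 1 ≤ m * q := Nat.mul_pos hm hq1
  exact le_antisymm (q_le hmq) (le_q hmq h1)

end Pool.Agent.H29.QP
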